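import Mathlib
import Pool.Agent.H79.SigmaQ

/-!
# Q2: the diamond principle for the tree `σℚ` holds (in ZFC)
-/

namespace Pool.Agent.Results.MP_d3ad9a_lc.DiamondSigmaQ

open Pool.Agent.H79

/-- **Full answer to Q2 (yes).**  The diamond principle holds for the tree `σℚ`. -/
theorem result : Diamond SigmaQ :=
  SigmaQ.diamond

end Pool.Agent.Results.MP_d3ad9a_lc.DiamondSigmaQ
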