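import Mathlib
import Pool.Agent.H79.SigmaQ

/-!
# Q1: the tree `σℚ` admits a nice successor-partition (in ZFC)
-/

namespace Pool.Agent.Results.MP_d3ad9a_lc.NicePartition

open Pool.Agent.H79

/-- **Full answer to Q1 (yes).**  The tree `σℚ` admits a nice successor-partition. -/
theorem result : ∃ Q : SigmaQ → Bool → Set SigmaQ, IsSuccPartition Q ∧ IsNice Q :=
  SigmaQ.exists_nice

end Pool.Agent.Results.MP_d3ad9a_lc.NicePartition
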